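import Pool.Agent.H409_AG.PartA
import Pool.Agent.H409_AG.PartD
import Pool.Agent.H409_AG.Two5

/-!
# It is consistent with ZFC that an analytic group on the reals is aleph_omega-free and not free

The three parts of the theorem are theorems of ZFC. The forcing relation is the one of
`Pool.Agent.Helper669.Forcing`: a sentence about the extension is the set of the conditions which
force it, and a name for a subset of a ground model set `X` is a map from `X` to sets of
conditions. The other definitions are in `Pool.Agent.H409_AG.Defs`; `ContinuumLe` (with the
index set `ω₁`), `RTN`, `OrientN` and `IncompactN` are the literal translations of the propositions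
`ContinuumHyp`, `RT`, `Orient` and `Incompact`. (The ladder systems defined there are used in the
proof only.)

Starting with any model of ZFC, (1) gives an extension with the continuum hypothesis; (2) gives a
further extension, with the same cardinals up to `ℵ_{ω+1}`, in which some closed graph on the
Baire space has an orientation with countable outdegrees on each family of fewer than `ℵ_ω`
points, but not on all families; and by (3) there is in this model a group on the set of all real
numbers, with a Borel multiplication, all of whose subgroups of size less than `ℵ_ω` are free, and
which is not free.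
-/

set_option autoImplicit false

namespace Pool.Agent.Results.MP_aba1db_lc.AlephOmegaFreeNotFree

open Cardinal Pool.Agent.Helper669.Forcing Pool.Agent.H409_AG

/-- The consistency with ZFC of an analytic group on the reals which is `ℵ_ω`-free but not free.
(1) The continuum hypothesis can be forced. (2) Under the continuum hypothesis one can force the
existence of an incompact closed graph, preserving the cardinals up to `ℵ_{ω+1}`. (3) If there is an
incompact closed graph, then some analytic (even Borel) group with underlying set `ℝ` is `ℵ_ω`-free
and not free. -/
theorem result :
    (∃ (Q : Type) (_ : Preorder Q), Nonempty Q ∧ ∀ q : Q,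
      q ∈ ContinuumLe Q (ℵ₁ : Cardinal.{0}).out) ∧
    (ContinuumHyp → ∃ (Q : Type) (_ : Preorder Q), Nonempty Q ∧ ∀ q : Q,
      q ∈ CardinalsPreservedTo Q (ℵ_ (Ordinal.omega0 + 1)) ∧ q ∈ IncompactN Q) ∧
    (Incompact → ∃ G : Group ℝ, MeasurableSet {p : ℝ × ℝ × ℝ | G.mul p.1 p.2.1 = p.2.2} ∧
      IsAnalyticGroup G ∧ IsKappaFree (ℵ_ Ordinal.omega0) G ∧ ¬ @IsFreeGroup ℝ G) := by
  refine ⟨ch_forced, incompact_forced, fun h => ?_⟩
  obtain ⟨G, h1, h2, h3⟩ := borel_group_of_incompact h
  exact ⟨G, h1, h1.analyticSet, h2, h3⟩

end Pool.Agent.Results.MP_aba1db_lc.AlephOmegaFreeNotFree
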